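import Mathlib

set_option autoImplicit false

namespace Pool.Agent.Results.MP_15b8d6_gt.Recon

open Set Metric Filter Topology
open scoped RealInnerProductSpace

/-- nearest points -/
def near {n : ℕ} (X : Set (EuclideanSpace ℝ (Fin n))) (a : EuclideanSpace ℝ (Fin n)) :
    Set (EuclideanSpace ℝ (Fin n)) := {x ∈ X | dist a x = infDist a X}

/-- the `λ`-medial axis -/
def medial {n : ℕ} (X : Set (EuclideanSpace ℝ (Fin n))) (l : ℝ) :
    Set (EuclideanSpace ℝ (Fin n)) :=
  {a | (near X a).Nontrivial ∧ ∀ z, ¬ near X a ⊆ closedBall z l}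

theorem result (n : ℕ) (X : Set (EuclideanSpace ℝ (Fin n))) (hne : X.Nonempty) (hX : IsClosed X)
    (l : ℝ) (hl : 0 < l) (p : EuclideanSpace ℝ (Fin n)) (hp : p ∈ convexHull ℝ X)
    (hd : l < infDist p X) : p ∈ ⋃ a ∈ medial X l, ball a (infDist a X) := by
  set d := infDist p X with hd0
  have hC : ∃ C, 0 < C ∧ ∀ a, infDist a X ^ 2 - dist a p ^ 2 ≤ C := by
    have hK : convexHull ℝ X ⊆ {q | ∃ C, ∀ a, infDist a X ^ 2 - dist a p ^ 2
        ≤ C - 2 * ⟪a - p, q - p⟫} := by
      refine convexHull_min (fun x hx => ⟨‖x - p‖ ^ 2, fun a => ?_⟩) ?_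
      · have h1 := pow_le_pow_left₀ infDist_nonneg (infDist_le_dist_of_mem (x := a) hx) 2
        have h2 := norm_sub_sq_real (a - p) (x - p)
        rw [sub_sub_sub_cancel_right] at h2
        rw [dist_eq_norm] at h1 ⊢
        linarith
      · rintro x ⟨C, hC⟩ y ⟨D, hD⟩ s t hs ht hst
        refine ⟨s * C + t * D, fun a => ?_⟩
        have e : s • x + t • y - p = s • (x - p) + t • (y - p) := by
          rw [smul_sub, smul_sub, sub_add_sub_comm, ← add_smul, hst, one_smul]
        rw [e, inner_add_right, inner_smul_right, inner_smul_right]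
        have h1 := mul_le_mul_of_nonneg_left (hC a) hs
        have h2 := mul_le_mul_of_nonneg_left (hD a) ht
        have h3 : infDist a X ^ 2 - dist a p ^ 2 = (s + t) * (infDist a X ^ 2 - dist a p ^ 2) := by
          rw [hst, one_mul]
        linarith
    obtain ⟨C, hC⟩ := hK hp
    refine ⟨max C 1, by positivity, fun a => ?_⟩
    have := hC a
    rw [sub_self, inner_zero_right] at this
    linarith [le_max_left C 1]
  obtain ⟨C, hC0, hC⟩ := hC
  set ε := (d - l) ^ 2 / C with hε
  have hε0 : 0 < ε := by have := sub_pos.2 hd; positivity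
  set ψ : EuclideanSpace ℝ (Fin n) → ℝ :=
    fun a => infDist a X ^ 2 - dist a p ^ 2 - ε * dist a p ^ 2 with hψ
  have hc : Continuous ψ := by
    have := continuous_infDist_pt X
    fun_prop
  obtain ⟨a, ha⟩ : ∃ a, ∀ b, ψ b ≤ ψ a := by
    refine hc.exists_forall_ge' p ?_
    have h1 : Tendsto (fun a => ε * dist a p ^ 2) (cocompact _) atTop :=
      ((tendsto_pow_atTop two_ne_zero).comp (tendsto_dist_right_cocompact_atTop p)).const_mul_atTop
        hε0
    filter_upwards [h1.eventually_ge_atTop C] with a ha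
    have := hC a
    simp only [hψ, dist_self]
    nlinarith [sq_nonneg (infDist p X)]
  have h1 := ha p
  have h2 := hC a
  simp only [hψ, dist_self, ← hd0] at h1
  have hdp : 0 < d := hl.trans hd
  have h3 : 0 ≤ ε * dist a p ^ 2 := by positivity
  have hnb : ∀ z, ¬ near X a ⊆ closedBall z l := by
    intro z hz
    set c := p - ε • (a - p) with hc0
    set v := c - z with hv
    have hcp : dist c p < d - l := by
      refine lt_of_pow_lt_pow_left₀ 2 (sub_pos.2 hd).le ?_
      have e1 : (d - l) ^ 2 = ε * C := by rw [hε]; field_simp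
      rw [dist_eq_norm, hc0, sub_sub_cancel_left, norm_neg, norm_smul, ← dist_eq_norm, e1,
        Real.norm_of_nonneg hε0.le, mul_pow, pow_two ε, mul_assoc]
      exact mul_lt_mul_of_pos_left (by nlinarith) hε0
    have ht : Tendsto (fun k : ℕ => 1 / ((k : ℝ) + 1)) atTop (𝓝 0) :=
      tendsto_one_div_add_atTop_nhds_zero_nat
    choose x hx1 hx2 using fun k : ℕ =>
      hX.exists_infDist_eq_dist hne (a + (1 / ((k : ℝ) + 1)) • v)
    have hta : Tendsto (fun k : ℕ => a + (1 / ((k : ℝ) + 1)) • v) atTop (𝓝 a) := by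
      simpa using (ht.smul_const v).const_add a
    have htd : Tendsto (fun k : ℕ => dist a (x k)) atTop (𝓝 (infDist a X)) := by
      have t1 := ((continuous_infDist_pt X).tendsto a).comp hta
      have t2 := (tendsto_const_nhds (x := a)).dist hta
      have t3 := t2.add t1
      rw [dist_self, zero_add] at t3
      refine tendsto_of_tendsto_of_tendsto_of_le_of_le tendsto_const_nhds t3
        (fun k => infDist_le_dist_of_mem (hx1 k)) fun k => ?_
      simp only [Function.comp, hx2]
      exact dist_triangle _ _ _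
    obtain ⟨R, hR⟩ := htd.bddAbove_range
    obtain ⟨y, hy, f, hf, hfy⟩ := ((isCompact_closedBall a R).inter_left hX).tendsto_subseq
      (x := x) fun k => ⟨hx1 k, mem_closedBall'.2 (hR ⟨k, rfl⟩)⟩
    have hyn : y ∈ near X a :=
      ⟨hy.1, tendsto_nhds_unique (tendsto_const_nhds.dist hfy) (htd.comp hf.tendsto_atTop)⟩
    have hk : ∀ k : ℕ, 0 ≤ 2 * ⟪v, x k - c⟫ + ε * (1 / ((k : ℝ) + 1)) * ‖v‖ ^ 2 := by
      intro k
      set τ : ℝ := 1 / ((k : ℝ) + 1)
      have hτ : 0 < τ := by positivity
      have a1 := ha (a + τ • v)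
      have a2 := pow_le_pow_left₀ infDist_nonneg (infDist_le_dist_of_mem (x := a) (hx1 k)) 2
      have a3 : dist (a + τ • v) (x k) ^ 2
          = dist a (x k) ^ 2 + 2 * (τ * ⟪v, a - x k⟫) + τ ^ 2 * ‖v‖ ^ 2 := by
        rw [dist_eq_norm, dist_eq_norm, add_sub_right_comm, norm_add_sq_real, inner_smul_right,
          real_inner_comm, norm_smul, mul_pow, Real.norm_eq_abs, sq_abs]
      have a4 : dist (a + τ • v) p ^ 2
          = dist a p ^ 2 + 2 * (τ * ⟪v, a - p⟫) + τ ^ 2 * ‖v‖ ^ 2 := by
        rw [dist_eq_norm, dist_eq_norm, add_sub_right_comm, norm_add_sq_real, inner_smul_right,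
          real_inner_comm, norm_smul, mul_pow, Real.norm_eq_abs, sq_abs]
      have a5 : ⟪v, x k - c⟫ = ⟪v, a - p⟫ - ⟪v, a - x k⟫ + ε * ⟪v, a - p⟫ := by
        rw [← inner_smul_right, ← inner_sub_right, ← inner_add_right, hc0]
        congr 1; abel
      simp only [hψ] at a1
      rw [hx2 k, a3, a4] at a1
      refine le_of_mul_le_mul_left ?_ hτ
      rw [a5]; nlinarith
    have hlim : 0 ≤ 2 * ⟪v, y - c⟫ + ε * 0 * ‖v‖ ^ 2 :=
      ge_of_tendsto' ((((tendsto_const_nhds (x := v)).inner (hfy.sub_const c)).const_mul 2).add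
        (((ht.comp hf.tendsto_atTop).const_mul ε).mul_const _)) fun k => hk (f k)
    have b1 : ‖y - z‖ ≤ l := by rw [← dist_eq_norm]; exact hz hyn
    have b2 : l < ‖y - c‖ := by
      have := infDist_le_dist_of_mem (x := p) hy.1
      have := dist_triangle_left p y c
      rw [← dist_eq_norm, dist_comm]; linarith
    have b3 := norm_add_sq_real v (y - c)
    rw [show v + (y - c) = y - z by rw [hv]; abel] at b3
    nlinarith [norm_nonneg (y - z), sq_nonneg ‖v‖]
  refine mem_biUnion (x := a) ⟨?_, hnb⟩ ?_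
  · by_contra h
    obtain ⟨y, hy1, hy2⟩ := hX.exists_infDist_eq_dist hne a
    exact hnb y fun w hw => by
      rw [(not_nontrivial_iff.1 h) hw ⟨hy1, hy2.symm⟩]; exact mem_closedBall_self hl.le
  · rw [mem_ball, dist_comm]
    exact lt_of_pow_lt_pow_left₀ 2 infDist_nonneg (by nlinarith)

end Pool.Agent.Results.MP_15b8d6_gt.Recon
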